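import Mathlib

set_option autoImplicit false

/-!
# MP_231d99_co: monochromatic concatenations of factors with bounded gaps

For every alphabet and every infinite word `x` there is a finite colouring of the finite words which
admits no `C`-good sequence of factors of `x`, for any `C`.
-/

namespace Pool.Agent.Results.MP_231d99_co.EveryWord

universe u

variable {X : Type u}

/-- The infinite word `x = x 1, x 2, x 3, ...` (the value `x 0` plays no role).  `w` occurs in `x`
starting at position `n`. -/
def OccursAt (x : ℕ → X) (w : List X) (n : ℕ) : Prop :=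
  ∀ i (hi : i < w.length), w[i] = x (n + i)

/-- `w` is a factor of `x` (factors are nonempty) -/
def IsFactor (x : ℕ → X) (w : List X) : Prop := w ≠ [] ∧ ∃ n, 1 ≤ n ∧ OccursAt x w n

/-- the position where the first occurrence of `w` starts -/
noncomputable def A (x : ℕ → X) (w : List X) : ℕ := sInf {n | 1 ≤ n ∧ OccursAt x w n}

/-- the first position after the first occurrence of `w` -/
noncomputable def B (x : ℕ → X) (w : List X) : ℕ := A x w + w.length

/-- `u 0, u 1, ...` is a `C`-good sequence of factors of `x` for the colouring `χ` -/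
def Good (x : ℕ → X) {κ : Type} (χ : List X → κ) (C : ℕ) (u : ℕ → List X) : Prop :=
  (∀ n, IsFactor x (u n)) ∧
  (∀ n, B x (u n) ≤ A x (u (n + 1)) ∧ A x (u (n + 1)) ≤ B x (u n) + C) ∧
  ∃ c, ∀ k : List ℕ, k ≠ [] → k.Pairwise (· < ·) → χ ((k.map u).flatten) = c

/-! ### basic lemmas -/

theorem occ_A {x : ℕ → X} {w : List X} (h : IsFactor x w) : 1 ≤ A x w ∧ OccursAt x w (A x w) :=
  Nat.sInf_mem (s := {n | 1 ≤ n ∧ OccursAt x w n}) h.2

theorem A_le {x : ℕ → X} {w : List X} {n : ℕ} (h1 : 1 ≤ n) (h : OccursAt x w n) : A x w ≤ n :=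
  Nat.sInf_le ⟨h1, h⟩

theorem occ_append {x : ℕ → X} {v w : List X} {p : ℕ} :
    OccursAt x (v ++ w) p ↔ OccursAt x v p ∧ OccursAt x w (p + v.length) := by
  constructor
  · intro h
    refine ⟨fun i hi => ?_, fun i hi => ?_⟩
    · have := h i (by rw [List.length_append]; omega)
      rwa [List.getElem_append_left hi] at this
    · have := h (v.length + i) (by rw [List.length_append]; omega)
      rw [List.getElem_append_right (by omega)] at this
      simp only [Nat.add_sub_cancel_left] at this
      rw [this]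
      congr 1; omega
  · rintro ⟨h1, h2⟩ i hi
    rw [List.length_append] at hi
    by_cases hv : i < v.length
    · rw [List.getElem_append_left hv]; exact h1 i hv
    · rw [List.getElem_append_right (by omega)]
      rw [h2 (i - v.length) (by omega)]
      congr 1; omega

theorem occ_eq {x : ℕ → X} {w : List X} {p q : ℕ} (hp : OccursAt x w p) (hq : OccursAt x w q)
    {i : ℕ} (hi : i < w.length) : x (p + i) = x (q + i) := (hp i hi).symm.trans (hq i hi)

theorem occ_of_eq {x : ℕ → X} {w : List X} {p q : ℕ} (hp : OccursAt x w p)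
    (h : ∀ i, i < w.length → x (q + i) = x (p + i)) : OccursAt x w q :=
  fun i hi => (hp i hi).trans (h i hi).symm

/-- the block of positions `[s, e)` of `x` has period `p` -/
def Per (x : ℕ → X) (s e p : ℕ) : Prop := ∀ i, s ≤ i → i + p < e → x i = x (i + p)

theorem per_sub {x : ℕ → X} {s e s' e' p : ℕ} (h : Per x s e p) (hs : s ≤ s') (he : e' ≤ e) :
    Per x s' e' p := fun i h1 h2 => h i (hs.trans h1) (lt_of_lt_of_le h2 he)

theorem per_mul {x : ℕ → X} {s e p : ℕ} (h : Per x s e p) :
    ∀ k i, s ≤ i → i + k * p < e → x i = x (i + k * p) := by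
  intro k
  induction k with
  | zero => intro i _ _; simp
  | succ k ih =>
    intro i h1 h2
    have e1 : i + (k + 1) * p = (i + k * p) + p := by ring
    rw [e1] at h2 ⊢
    rw [ih i h1 (by omega)]
    exact h (i + k * p) (by omega) h2

theorem per_transfer {x : ℕ → X} {s s' L p : ℕ} (h : Per x s (s + L) p)
    (heq : ∀ i, i < L → x (s' + i) = x (s + i)) : Per x s' (s' + L) p := by
  intro i h1 h2
  obtain ⟨t, rfl⟩ := Nat.exists_eq_add_of_le h1
  rw [heq t (by omega), show s' + t + p = s' + (t + p) by ring, heq (t + p) (by omega)]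
  have := h (s + t) (by omega) (by omega)
  rw [this]
  congr 1; omega

/-- union of two overlapping blocks with the same period -/
theorem per_union {x : ℕ → X} {s1 e1 s2 e2 p : ℕ} (h1 : Per x s1 e1 p) (h2 : Per x s2 e2 p)
    (hov : s2 + p ≤ e1) : Per x s1 e2 p := by
  intro i hi1 hi2
  by_cases h : i + p < e1
  · exact h1 i hi1 h
  · exact h2 i (by omega) hi2

/-- a long final block of smaller period -/
theorem per_left {x : ℕ → X} {p q e P r : ℕ} (hP : 0 < P) (h1 : Per x p e P) (h2 : Per x q e r)
    (hlen : q + P + r ≤ e) : Per x p e r := by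
  intro i hi1 hi2
  by_cases hq : q ≤ i
  · exact h2 i hq hi2
  · -- shift right by multiples of `P`
    push Not at hq
    set k := (q - i + P - 1) / P with hk
    have hk1 : q ≤ i + k * P := by
      have := Nat.div_add_mod (q - i + P - 1) P
      have h3 := Nat.mod_lt (q - i + P - 1) hP
      rw [← hk] at this
      have h4 : P * k = k * P := Nat.mul_comm _ _
      omega
    have hk2 : i + k * P < q + P := by
      have h5 : k * P ≤ q - i + P - 1 := Nat.div_mul_le_self _ _
      omega
    rw [per_mul h1 k i hi1 (by omega)]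
    rw [h2 (i + k * P) hk1 (by omega)]
    rw [show i + k * P + r = (i + r) + k * P by ring]
    exact (per_mul h1 k (i + r) (by omega) (by omega)).symm

/-- a long initial block of smaller period -/
theorem per_right {x : ℕ → X} {p m e P r : ℕ} (hP : 0 < P) (h1 : Per x p e P) (h2 : Per x p m r)
    (hlen : p + P + r ≤ m) : Per x p e r := by
  intro i hi1 hi2
  by_cases hq : i + r < m
  · exact h2 i hi1 hq
  · -- shift left by multiples of `P`
    push Not at hq
    set k := (i - p) / P with hk
    have h3 := Nat.div_add_mod (i - p) P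
    have h4 := Nat.mod_lt (i - p) hP
    rw [← hk] at h3
    have h5 : P * k = k * P := Nat.mul_comm _ _
    set j := i - k * P with hj
    have hj1 : p ≤ j := by omega
    have hj2 : j < p + P := by omega
    have hji : j + k * P = i := by omega
    have e1 : x j = x i := by
      rw [per_mul h1 k j hj1 (by omega), hji]
    have e2 : x (j + r) = x (i + r) := by
      rw [per_mul h1 k (j + r) (by omega) (by omega)]
      congr 1; omega
    rw [← e1, ← e2]
    exact h2 j hj1 (by omega)

/-- comparing left extensions -/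
theorem per_compare {x : ℕ → X} {p1 q1 p2 q2 L r : ℕ} (hr : 0 < r) (hrL : r ≤ L)
    (h1 : Per x p1 (q1 + L) r) (h2 : Per x p2 (q2 + L) r)
    (heq : ∀ i, i < L → x (q1 + i) = x (q2 + i)) {i : ℕ} (hi1 : p1 + i + 1 ≤ q1)
    (hi2 : p2 + i + 1 ≤ q2) : x (q1 - 1 - i) = x (q2 - 1 - i) := by
  set k := (i + 1 + r - 1) / r with hk
  have h3 := Nat.div_add_mod (i + 1 + r - 1) r
  have h4 := Nat.mod_lt (i + 1 + r - 1) hr
  rw [← hk] at h3
  have h5 : r * k = k * r := Nat.mul_comm _ _
  have hk1 : i + 1 ≤ k * r := by omega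
  have hk2 : k * r < i + 1 + r := by omega
  rw [per_mul h1 k (q1 - 1 - i) (by omega) (by omega),
    per_mul h2 k (q2 - 1 - i) (by omega) (by omega)]
  have e1 : q1 - 1 - i + k * r = q1 + (k * r - (i + 1)) := by omega
  have e2 : q2 - 1 - i + k * r = q2 + (k * r - (i + 1)) := by omega
  rw [e1, e2]
  exact heq _ (by omega)

/-- an overlap of two occurrences is a period -/
theorem per_of_occ {x : ℕ → X} {w : List X} {p d : ℕ} (h1 : OccursAt x w p)
    (h2 : OccursAt x w (p + d)) : Per x p (p + w.length) d := by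
  intro i hi1 hi2
  obtain ⟨t, rfl⟩ := Nat.exists_eq_add_of_le hi1
  have := occ_eq h1 h2 (i := t) (by omega)
  rw [this]
  congr 1; omega

/-! ### the colouring -/

/-- least period of the factor `w`, read off at its first occurrence -/
noncomputable def minPer (x : ℕ → X) (w : List X) : ℕ := sInf {p | 0 < p ∧ Per x (A x w) (B x w) p}

theorem minPer_spec {x : ℕ → X} {w : List X} (h : w ≠ []) :
    0 < minPer x w ∧ Per x (A x w) (B x w) (minPer x w) := by
  have : (minPer x w) ∈ {p | 0 < p ∧ Per x (A x w) (B x w) p} := by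
    refine Nat.sInf_mem ⟨w.length, List.length_pos_iff.2 h, fun i h1 h2 => ?_⟩
    unfold B at h2
    omega
  exact this

theorem minPer_le {x : ℕ → X} {w : List X} {p : ℕ} (h0 : 0 < p) (h : Per x (A x w) (B x w) p) :
    minPer x w ≤ p := Nat.sInf_le ⟨h0, h⟩

def f3 (x : ℕ → X) (w : List X) : Prop := 24 * A x w ≤ w.length
def f4 (x : ℕ → X) (w : List X) : Prop := 8 * minPer x w ≤ w.length
def f5 (x : ℕ → X) (w : List X) : Prop :=
  ∀ i, 2 * (i + 1) ≤ A x w → x (A x w - 1 - i) = x (B x w - 1 - i)
def f6 (x : ℕ → X) (w : List X) : Prop :=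
  ∃ h, minPer x w ≤ 2 * h ∧ h < A x w ∧ Per x (A x w - h) (B x w) (minPer x w)

def psi (n : ℕ) : Fin 35 := ⟨Nat.log 2 (n ^ 34) % 35, Nat.mod_lt _ (by norm_num)⟩

/-- the colouring -/
def col (x : ℕ → X) (w : List X) : Prop × Fin 35 × Prop × Prop × Prop × Prop :=
  (IsFactor x w, psi w.length, f3 x w, f4 x w, f5 x w, f6 x w)

theorem psi_ratio {a b : ℕ} (hab : a ≤ b) (h : psi b = psi (a + b)) :
    48 * a ≤ b := by
  by_contra hlt
  push Not at hlt
  have hb : 0 < b := by omega
  unfold psi at h
  rw [Fin.mk.injEq] at h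
  have h1 : 2 * b ^ 34 ≤ (a + b) ^ 34 := by
    have h49 : 49 * b ≤ 48 * (a + b) := by omega
    have h2 : (49 * b) ^ 34 ≤ (48 * (a + b)) ^ 34 := Nat.pow_le_pow_left h49 34
    rw [mul_pow, mul_pow] at h2
    have h3 : 2 * 48 ^ 34 ≤ 49 ^ 34 := by norm_num
    have h4 : 48 ^ 34 * (2 * b ^ 34) ≤ 48 ^ 34 * (a + b) ^ 34 := by
      calc 48 ^ 34 * (2 * b ^ 34) = (2 * 48 ^ 34) * b ^ 34 := by ring
        _ ≤ 49 ^ 34 * b ^ 34 := Nat.mul_le_mul_right _ h3
        _ ≤ 48 ^ 34 * (a + b) ^ 34 := h2
    exact Nat.le_of_mul_le_mul_left h4 (by positivity)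
  have h2 : (a + b) ^ 34 ≤ 2 ^ 34 * b ^ 34 := by
    rw [← mul_pow]
    exact Nat.pow_le_pow_left (by omega) 34
  have hb34 : b ^ 34 ≠ 0 := by positivity
  have l1 : Nat.log 2 (b ^ 34) + 1 ≤ Nat.log 2 ((a + b) ^ 34) := by
    have := Nat.log_mono_right (b := 2) h1
    rw [mul_comm 2 (b ^ 34), Nat.log_mul_base (by norm_num) hb34] at this
    exact this
  have l2 : Nat.log 2 ((a + b) ^ 34) ≤ Nat.log 2 (b ^ 34) + 34 := by
    have h3 : ∀ k : ℕ, Nat.log 2 (2 ^ k * b ^ 34) = Nat.log 2 (b ^ 34) + k := by
      intro k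
      induction k with
      | zero => simp
      | succ k ih =>
        rw [show 2 ^ (k + 1) * b ^ 34 = (2 ^ k * b ^ 34) * 2 by ring,
          Nat.log_mul_base (by norm_num) (by positivity), ih]
        ring
    have := Nat.log_mono_right (b := 2) h2
    rwa [h3] at this
  omega

theorem per_occ {x : ℕ → X} {w : List X} {p q r : ℕ} (hp : OccursAt x w p) (hq : OccursAt x w q)
    (h : Per x p (p + w.length) r) : Per x q (q + w.length) r :=
  per_transfer h (fun _ hi => occ_eq hq hp hi)

theorem minPer_le_of_occ {x : ℕ → X} {w : List X} {q r : ℕ} (hf : IsFactor x w)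
    (hq : OccursAt x w q) (hr : 0 < r) (h : Per x q (q + w.length) r) : minPer x w ≤ r :=
  minPer_le hr (per_occ hq (occ_A hf).2 h)

theorem per_minPer {x : ℕ → X} {w : List X} {q : ℕ} (hf : IsFactor x w) (hq : OccursAt x w q) :
    Per x q (q + w.length) (minPer x w) :=
  per_occ (occ_A hf).2 hq (minPer_spec hf.1).2

/-- shifting an occurrence to the left by a period -/
theorem occ_shift {x : ℕ → X} {w : List X} {s e p r : ℕ} (hp : OccursAt x w p)
    (h : Per x s e r) (hs : s + r ≤ p) (he : p + w.length ≤ e) : OccursAt x w (p - r) := by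
  refine occ_of_eq hp (fun i hi => ?_)
  have := h (p - r + i) (by omega) (by omega)
  rw [this]
  congr 1; omega

/-! ### products of a good sequence -/

/-- the word `u_{k_1} u_{k_2} ⋯` -/
def W (u : ℕ → List X) (l : List ℕ) : List X := (l.map u).flatten

theorem W_append (u : ℕ → List X) (l l' : List ℕ) : W u (l ++ l') = W u l ++ W u l' := by
  simp [W]

theorem W_single (u : ℕ → List X) (n : ℕ) : W u [n] = u n := by
  simp [W]

theorem W_snoc (u : ℕ → List X) (l : List ℕ) (n : ℕ) : W u (l ++ [n]) = W u l ++ u n := by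
  rw [W_append, W_single]

theorem W_length (u : ℕ → List X) (l : List ℕ) :
    (W u l).length = (l.map (fun i => (u i).length)).sum := by
  induction l with
  | nil => simp [W]
  | cons a l ih =>
    have : W u (a :: l) = u a ++ W u l := by simp [W]
    rw [this, List.length_append, ih]
    simp

def S (u : ℕ → List X) (n : ℕ) : ℕ := ∑ i ∈ Finset.range n, (u i).length

theorem S_succ (u : ℕ → List X) (n : ℕ) : S u (n + 1) = S u n + (u n).length := by
  unfold S
  rw [Finset.sum_range_succ]

theorem W_range (u : ℕ → List X) (n : ℕ) : (W u (List.range n)).length = S u n := by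
  induction n with
  | zero => simp [W, S]
  | succ n ih => rw [List.range_succ, W_snoc, List.length_append, ih, S_succ]

theorem W_range' (u : ℕ → List X) (m k : ℕ) :
    S u m + (W u (List.range' m k)).length = S u (m + k) := by
  induction k with
  | zero => simp [W]
  | succ k ih =>
    rw [List.range'_1_concat, W_snoc, List.length_append, ← add_assoc, ih, ← add_assoc, S_succ]

theorem W_le_S (u : ℕ → List X) (l : List ℕ) (n : ℕ) (hl : l.Pairwise (· < ·))
    (hn : ∀ i ∈ l, i < n) : (W u l).length ≤ S u n := by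
  rw [W_length]
  have hnd : l.Nodup := hl.imp (fun h => ne_of_lt h)
  rw [← List.sum_toFinset _ hnd]
  unfold S
  refine Finset.sum_le_sum_of_subset ?_
  intro i hi
  rw [Finset.mem_range]
  exact hn i (List.mem_toFinset.1 hi)

/-- consequences of goodness -/
structure Ctx (x : ℕ → X) (C : ℕ) (u : ℕ → List X) : Prop where
  fac : ∀ n, IsFactor x (u n)
  gap1 : ∀ n, A x (u n) + (u n).length ≤ A x (u (n + 1))
  gap2 : ∀ n, A x (u (n + 1)) ≤ A x (u n) + (u n).length + C
  mono : ∀ l l' : List ℕ, l ≠ [] → l' ≠ [] → l.Pairwise (· < ·) → l'.Pairwise (· < ·) →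
    col x (W u l) = col x (W u l')

namespace Ctx

variable {x : ℕ → X} {C : ℕ} {u : ℕ → List X}

theorem facW (H : Ctx x C u) {l : List ℕ} (h0 : l ≠ []) (hl : l.Pairwise (· < ·)) :
    IsFactor x (W u l) := by
  have := H.mono l [0] h0 (by simp) hl (by simp)
  have h1 := congrArg Prod.fst this
  simp only [col, W_single, eq_iff_iff] at h1
  exact h1.2 (H.fac 0)

theorem psiW (H : Ctx x C u) {l l' : List ℕ} (h0 : l ≠ []) (h0' : l' ≠ [])
    (hl : l.Pairwise (· < ·)) (hl' : l'.Pairwise (· < ·)) :
    psi (W u l).length = psi (W u l').length :=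
  congrArg (fun z => z.2.1) (H.mono l l' h0 h0' hl hl')

theorem f3W (H : Ctx x C u) {l l' : List ℕ} (h0 : l ≠ []) (h0' : l' ≠ [])
    (hl : l.Pairwise (· < ·)) (hl' : l'.Pairwise (· < ·)) :
    f3 x (W u l) ↔ f3 x (W u l') :=
  iff_of_eq (congrArg (fun z => z.2.2.1) (H.mono l l' h0 h0' hl hl'))

theorem f4W (H : Ctx x C u) {l l' : List ℕ} (h0 : l ≠ []) (h0' : l' ≠ [])
    (hl : l.Pairwise (· < ·)) (hl' : l'.Pairwise (· < ·)) :
    f4 x (W u l) ↔ f4 x (W u l') :=
  iff_of_eq (congrArg (fun z => z.2.2.2.1) (H.mono l l' h0 h0' hl hl'))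

theorem f5W (H : Ctx x C u) {l l' : List ℕ} (h0 : l ≠ []) (h0' : l' ≠ [])
    (hl : l.Pairwise (· < ·)) (hl' : l'.Pairwise (· < ·)) :
    f5 x (W u l) ↔ f5 x (W u l') :=
  iff_of_eq (congrArg (fun z => z.2.2.2.2.1) (H.mono l l' h0 h0' hl hl'))

theorem f6W (H : Ctx x C u) {l l' : List ℕ} (h0 : l ≠ []) (h0' : l' ≠ [])
    (hl : l.Pairwise (· < ·)) (hl' : l'.Pairwise (· < ·)) :
    f6 x (W u l) ↔ f6 x (W u l') :=
  iff_of_eq (congrArg (fun z => z.2.2.2.2.2) (H.mono l l' h0 h0' hl hl'))

theorem len_pos (H : Ctx x C u) (n : ℕ) : 0 < (u n).length := List.length_pos_iff.2 (H.fac n).1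

theorem a_mono (H : Ctx x C u) {i n : ℕ} (h : i < n) : A x (u i) + (u i).length ≤ A x (u n) := by
  induction n, h using Nat.le_induction with
  | base => exact H.gap1 i
  | succ n hn ih => exact ih.trans ((Nat.le_add_right _ _).trans (H.gap1 n))

theorem S_lt_a (H : Ctx x C u) (n : ℕ) : S u n < A x (u n) := by
  induction n with
  | zero =>
    have := (occ_A (H.fac 0)).1
    simp only [S, Finset.range_zero, Finset.sum_empty]
    omega
  | succ n ih =>
    rw [S_succ]
    have := H.gap1 n
    omega

theorem a_le_S (H : Ctx x C u) (n : ℕ) : A x (u n) ≤ A x (u 0) + S u n + C * n := by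
  induction n with
  | zero => simp [S]
  | succ n ih =>
    rw [S_succ]
    have := H.gap2 n
    have e : C * (n + 1) = C * n + C := by ring
    omega

/-- lengths of consecutive products have a large ratio -/
theorem ratio (H : Ctx x C u) {l l' : List ℕ} (h0 : l ≠ []) (h0' : l' ≠ [])
    (hl : (l ++ l').Pairwise (· < ·)) :
    48 * (W u l).length ≤ (W u l').length ∨ 48 * (W u l').length ≤ (W u l).length := by
  have h1 : l.Pairwise (· < ·) := (List.pairwise_append.1 hl).1
  have h2 : l'.Pairwise (· < ·) := (List.pairwise_append.1 hl).2.1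
  have h3 : l ++ l' ≠ [] := by simp [h0]
  have p1 := H.psiW h0' h3 h2 hl
  have p2 := H.psiW h0 h3 h1 hl
  rw [W_append, List.length_append] at p1 p2
  have l1 : 0 < (W u l).length := List.length_pos_iff.2 (H.facW h0 h1).1
  have l2 : 0 < (W u l').length := List.length_pos_iff.2 (H.facW h0' h2).1
  rcases le_total (W u l).length (W u l').length with h | h
  · exact Or.inl (psi_ratio h p1)
  · right
    rw [add_comm] at p2
    exact psi_ratio h p2

theorem ratio_range (H : Ctx x C u) {m n : ℕ} (hm : 0 < m) (hmn : m < n) :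
    48 * S u m ≤ S u n - S u m ∨ 48 * (S u n - S u m) ≤ S u m := by
  have h := H.ratio (l := List.range m) (l' := List.range' m (n - m)) (by
    intro h; rw [List.range_eq_nil] at h; omega) (by
    intro h; rw [List.range'_eq_nil_iff] at h; omega) (by
    have e : List.range m ++ List.range' m (n - m) = List.range' 0 (m + (n - m)) := by
      rw [List.range_eq_range', ← List.range'_append_1, Nat.zero_add]
    rw [e]
    exact List.pairwise_lt_range')
  rw [W_range] at h
  have := W_range' u m (n - m)
  rw [show m + (n - m) = n by omega] at this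
  have e : (W u (List.range' m (n - m))).length = S u n - S u m := by omega
  rwa [e] at h

theorem ratio_one (H : Ctx x C u) {i n : ℕ} (h : i < n) :
    48 * (u i).length ≤ (u n).length ∨ 48 * (u n).length ≤ (u i).length := by
  have := H.ratio (l := [i]) (l' := [n]) (by simp) (by simp) (by simp [h])
  rwa [W_single, W_single] at this

theorem len_tendsto (H : Ctx x C u) (L : ℕ) : ∃ N, ∀ n, N ≤ n → L < (u n).length := by
  have hinj : Function.Injective (fun n => (u n).length) := by
    intro i n h
    simp only at h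
    rcases lt_trichotomy i n with h1 | h1 | h1
    · have := H.ratio_one h1
      have := H.len_pos i
      omega
    · exact h1
    · have := H.ratio_one h1
      have := H.len_pos i
      omega
  have := hinj.nat_tendsto_atTop
  have h2 := (Filter.tendsto_atTop.1 this) (L + 1)
  obtain ⟨N, hN⟩ := Filter.eventually_atTop.1 h2
  exact ⟨N, fun n hn => hN n hn⟩

/-- infinitely often `u_n` is much longer than all the earlier ones together -/
theorem long (H : Ctx x C u) (N : ℕ) : ∃ n, N ≤ n ∧ 48 * S u n ≤ (u n).length := by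
  by_contra hcon
  push Not at hcon
  set m := N + 1 with hm
  have hSm : 0 < S u m := by
    rw [hm, S_succ]
    have := H.len_pos N
    omega
  have key : ∀ k, S u m ≤ S u (m + k) ∧ 48 * (S u (m + k) - S u m) ≤ S u m := by
    intro k
    induction k with
    | zero => simp
    | succ k ih =>
      have e : S u (m + (k + 1)) = S u (m + k) + (u (m + k)).length := by
        rw [← add_assoc, S_succ]
      have h1 := hcon (m + k) (by omega)
      have h2 : 48 * (u (m + k)).length ≤ S u (m + k) := by
        have h3 := H.ratio_range (m := m + k) (n := m + k + 1) (by omega) (by omega)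
        rw [S_succ] at h3
        omega
      have h4 := H.ratio_range (m := m) (n := m + (k + 1)) (by omega) (by omega)
      rw [e] at h4 ⊢
      omega
  have grow : ∀ k, S u m + k ≤ S u (m + k) := by
    intro k
    induction k with
    | zero => simp
    | succ k ih =>
      have e : S u (m + (k + 1)) = S u (m + k) + (u (m + k)).length := by
        rw [← add_assoc, S_succ]
      have := H.len_pos (m + k)
      omega
  have h1 := key (S u m)
  have h2 := grow (S u m)
  omega

theorem S_large (H : Ctx x C u) : ∃ N, ∀ n, N ≤ n → A x (u 0) + C * n ≤ S u n := by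
  obtain ⟨N, hN⟩ := H.len_tendsto C
  have key : ∀ k, (C + 1) * k ≤ S u (N + k) := by
    intro k
    induction k with
    | zero => simp
    | succ k ih =>
      have e : S u (N + (k + 1)) = S u (N + k) + (u (N + k)).length := by
        rw [← add_assoc, S_succ]
      have h1 := hN (N + k) (by omega)
      have e2 : (C + 1) * (k + 1) = (C + 1) * k + (C + 1) := by ring
      omega
  refine ⟨N + (A x (u 0) + C * N), fun n hn => ?_⟩
  have h := key (n - N)
  rw [show N + (n - N) = n by omega] at h
  obtain ⟨k, rfl⟩ := Nat.exists_eq_add_of_le hn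
  have e1 : N + (A x (u 0) + C * N) + k - N = A x (u 0) + C * N + k := by omega
  rw [e1] at h
  have e2 : C * (N + (A x (u 0) + C * N) + k) = C * N + C * (A x (u 0) + C * N + k) := by ring
  have e3 : (C + 1) * (A x (u 0) + C * N + k) =
    C * (A x (u 0) + C * N + k) + (A x (u 0) + C * N + k) := by ring
  omega

/-- every product is much longer than the position of its first occurrence -/
theorem f3_all (H : Ctx x C u) {l : List ℕ} (h0 : l ≠ []) (hl : l.Pairwise (· < ·)) :
    24 * A x (W u l) ≤ (W u l).length := by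
  obtain ⟨N, hN⟩ := H.S_large
  obtain ⟨n, hn, h2⟩ := H.long N
  have h3 := hN n hn
  have h4 := H.a_le_S n
  have h5 : f3 x (W u [n]) := by
    rw [W_single]
    unfold f3
    omega
  exact (H.f3W (by simp) h0 (by simp) hl).1 h5

theorem a_small (H : Ctx x C u) (n : ℕ) : 24 * A x (u n) ≤ (u n).length := by
  have := H.f3_all (l := [n]) (by simp) (by simp)
  rwa [W_single] at this

/-- data of a product `W u l ++ u n` -/
theorem snoc (H : Ctx x C u) {l : List ℕ} {n : ℕ} (hl : (l ++ [n]).Pairwise (· < ·)) :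
    1 ≤ A x (W u (l ++ [n])) ∧
    OccursAt x (W u l) (A x (W u (l ++ [n]))) ∧
    OccursAt x (u n) (A x (W u (l ++ [n])) + (W u l).length) ∧
    A x (u n) ≤ A x (W u (l ++ [n])) + (W u l).length ∧
    8 * (A x (W u (l ++ [n])) + (W u l).length) ≤ (u n).length ∧
    24 * (W u l).length ≤ (u n).length := by
  have hw : l ++ [n] ≠ [] := by simp
  have h1 := occ_A (H.facW hw hl)
  have h2 := h1.2
  rw [W_snoc, occ_append] at h2
  rw [← W_snoc] at h2
  have h3 := H.f3_all hw hl
  have h4 : (W u (l ++ [n])).length = (W u l).length + (u n).length := by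
    rw [W_snoc, List.length_append]
  have hp := List.pairwise_append.1 hl
  have h5 := W_le_S u l n hp.1 (fun i hi => hp.2.2 i hi n (by simp))
  have h6 := H.S_lt_a n
  have h7 := H.a_small n
  refine ⟨h1.1, h2.1, h2.2, A_le (by omega) h2.2, by omega, by omega⟩

/-- an occurrence of `u n` shortly after its first occurrence gives a period -/
theorem delta_per (H : Ctx x C u) {n q : ℕ} (hq : OccursAt x (u n) q) (hle : A x (u n) ≤ q) :
    Per x (A x (u n)) (q + (u n).length) (q - A x (u n)) := by
  have h := (occ_A (H.fac n)).2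
  intro i hi1 hi2
  obtain ⟨t, rfl⟩ := Nat.exists_eq_add_of_le hi1
  have := occ_eq h hq (i := t) (by omega)
  rw [this]
  congr 1; omega

/-! #### Case N: the products have no short period -/

theorem caseN (H : Ctx x C u) (hN : ¬ f4 x (u 0)) {l : List ℕ} {n : ℕ}
    (hl : (l ++ [n]).Pairwise (· < ·)) :
    A x (W u (l ++ [n])) + (W u l).length = A x (u n) := by
  obtain ⟨h1, h2, h3, h4, h5, h6⟩ := H.snoc hl
  by_contra hne
  have hd := H.delta_per h3 h4
  have hm := minPer_le_of_occ (H.fac n) (occ_A (H.fac n)).2 (by omega)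
    (per_sub hd le_rfl (by omega))
  apply hN
  have h7 : f4 x (W u [n]) := by
    rw [W_single]
    unfold f4
    omega
  have h8 := (H.f4W (l := [n]) (l' := [0]) (by simp) (by simp) (by simp) (by simp)).1 h7
  rwa [W_single] at h8

theorem caseN_per (H : Ctx x C u) (hN : ¬ f4 x (u 0)) (n : ℕ) :
    (u n).length < 8 * minPer x (u n) := by
  by_contra hlt
  push Not at hlt
  apply hN
  have h7 : f4 x (W u [n]) := by
    rw [W_single]
    exact hlt
  have h8 := (H.f4W (l := [n]) (l' := [0]) (by simp) (by simp) (by simp) (by simp)).1 h7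
  rwa [W_single] at h8

/-! #### Case P: the products have short periods -/

theorem caseP_per (H : Ctx x C u) (hP : f4 x (u 0)) {l : List ℕ} (h0 : l ≠ [])
    (hl : l.Pairwise (· < ·)) : 8 * minPer x (W u l) ≤ (W u l).length := by
  have h7 : f4 x (W u [0]) := by
    rw [W_single]
    exact hP
  exact (H.f4W (l := [0]) (l' := l) (by simp) h0 (by simp) hl).1 h7

theorem caseP_pi (H : Ctx x C u) (hP : f4 x (u 0)) (n : ℕ) :
    8 * minPer x (u n) ≤ (u n).length := by
  have := H.caseP_per hP (l := [n]) (by simp) (by simp)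
  rwa [W_single] at this

theorem pi_pos (H : Ctx x C u) (n : ℕ) : 0 < minPer x (u n) := (minPer_spec (H.fac n).1).1

/-- the product `W u l ++ u n` has the same least period as `u n` -/
theorem P1 (H : Ctx x C u) (hP : f4 x (u 0)) {l : List ℕ} {n : ℕ}
    (hl : (l ++ [n]).Pairwise (· < ·)) :
    minPer x (W u (l ++ [n])) = minPer x (u n) ∧
    Per x (A x (W u (l ++ [n]))) (A x (W u (l ++ [n])) + (W u l).length + (u n).length)
      (minPer x (u n)) := by
  obtain ⟨h1, h2, h3, h4, h5, h6⟩ := H.snoc hl
  have hw : l ++ [n] ≠ [] := by simp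
  have hf := H.facW hw hl
  obtain ⟨m0, m1⟩ := minPer_spec hf.1
  have m2 := H.caseP_per hP hw hl
  have m3 := H.caseP_pi hP n
  have e4 : (W u (l ++ [n])).length = (W u l).length + (u n).length := by
    rw [W_snoc, List.length_append]
  unfold B at m1
  rw [e4] at m1 m2
  rw [← add_assoc] at m1
  have key := per_left m0 m1 (per_minPer (H.fac n) h3) (by omega)
  refine ⟨le_antisymm ?_ ?_, key⟩
  · refine minPer_le (H.pi_pos n) ?_
    unfold B
    rw [e4, ← add_assoc]
    exact key
  · exact minPer_le_of_occ (H.fac n) h3 m0 (per_sub m1 (by omega) (by omega))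

theorem P2 (H : Ctx x C u) (hP : f4 x (u 0)) {i n : ℕ} (h : i < n) :
    minPer x (u n) = minPer x (u i) ∨ (u i).length < 2 * minPer x (u n) := by
  by_cases hlt : (u i).length < 2 * minPer x (u n)
  · exact Or.inr hlt
  left
  push Not at hlt
  have hl : ([i] ++ [n]).Pairwise (· < ·) := by simp [h]
  obtain ⟨h1, h2, h3, h4, h5, h6⟩ := H.snoc hl
  obtain ⟨k1, k2⟩ := H.P1 hP hl
  rw [W_single] at h2 h3 h4 h5 h6 k2
  have m1 : minPer x (u i) ≤ minPer x (u n) :=
    minPer_le_of_occ (H.fac i) h2 (H.pi_pos n) (per_sub k2 le_rfl (by omega))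
  have m2 := per_minPer (H.fac i) h2
  have m3 := per_right (H.pi_pos n) k2 m2 (by omega)
  refine le_antisymm ?_ m1
  exact minPer_le_of_occ (H.fac n) h3 (H.pi_pos i) (per_sub m3 (by omega) (by omega))

theorem P3 (H : Ctx x C u) (hP : f4 x (u 0)) (L : ℕ) :
    ∃ N, ∀ n, N ≤ n → L < minPer x (u n) := by
  by_contra hcon
  push Not at hcon
  obtain ⟨N, hN⟩ := H.len_tendsto (C + 2 * L)
  obtain ⟨n, hn, hnL⟩ := hcon (N + 3)
  have hpi : ∀ i, N ≤ i → i < n → minPer x (u i) = minPer x (u n) := by
    intro i hi hin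
    have h1 := hN i hi
    rcases H.P2 hP hin with h | h
    · exact h.symm
    · omega
  set r := minPer x (u n) with hr
  have hr0 : 0 < r := H.pi_pos n
  have e1 := hpi (N + 1) (by omega) (by omega)
  have e2 := hpi (N + 2) (by omega) (by omega)
  have hl : ([N] ++ [N + 1]).Pairwise (· < ·) := by simp
  obtain ⟨h1, h2, h3, h4, h5, h6⟩ := H.snoc hl
  obtain ⟨k1, k2⟩ := H.P1 hP hl
  rw [W_single] at h2 h3 h4 h5 h6 k2
  rw [e1] at k1 k2
  set p := A x (W u ([N] ++ [N + 1])) with hp
  have hlen := hN N le_rfl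
  have g1 := H.gap1 (N + 1)
  have g2 := H.gap2 (N + 1)
  have o1 := (occ_A (H.fac (N + 1)))
  have o2 := (occ_A (H.fac (N + 2)))
  have hlt : A x (u (N + 1)) < p + r := by
    by_contra hge
    push Not at hge
    have := A_le (by omega) (occ_shift o1.2 k2 hge (by omega))
    omega
  have hpr := H.caseP_pi hP (N + 1)
  have hpr2 := H.caseP_pi hP (N + 2)
  rw [e1] at hpr
  rw [e2] at hpr2
  have per1 := per_minPer (H.fac (N + 1)) o1.2
  have per2 := per_minPer (H.fac (N + 2)) o2.2
  rw [e1] at per1
  rw [e2] at per2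
  have big1 : Per x (A x (u (N + 1))) (p + (u N).length + (u (N + 1)).length) r :=
    per_union per1 k2 (by omega)
  have e3 : A x (u (N + 1 + 1)) = A x (u (N + 2)) := rfl
  have big2 : Per x (A x (u (N + 1))) (A x (u (N + 2)) + (u (N + 2)).length) r :=
    per_union big1 per2 (by omega)
  have := A_le (by omega) (occ_shift o2.2 big2 (by omega) le_rfl)
  omega

theorem P4 (H : Ctx x C u) (hP : f4 x (u 0)) {i n : ℕ} (h : i < n)
    (hbig : 2 * (u i).length ≤ minPer x (u n)) :
    A x (W u ([i] ++ [n])) + (u i).length = A x (u n) := by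
  have hl : ([i] ++ [n]).Pairwise (· < ·) := by simp [h]
  obtain ⟨h1, h2, h3, h4, h5, h6⟩ := H.snoc hl
  obtain ⟨k1, k2⟩ := H.P1 hP hl
  rw [W_single] at h2 h3 h4 h5 h6 k2
  by_contra hne
  have hd := H.delta_per h3 h4
  have o1 := (occ_A (H.fac n))
  have hpr := H.caseP_pi hP n
  have hm := minPer_le_of_occ (H.fac n) o1.2 (by omega)
    (per_sub hd le_rfl (by omega))
  have f6w : f6 x (W u ([i] ++ [n])) := by
    refine ⟨A x (W u ([i] ++ [n])) - A x (u n), by rw [k1]; omega, by omega, ?_⟩
    rw [k1]
    have e4 : (W u ([i] ++ [n])).length = (u i).length + (u n).length := by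
      rw [W_snoc, List.length_append, W_single]
    unfold B
    rw [e4, ← add_assoc]
    have e5 : A x (W u ([i] ++ [n])) - (A x (W u ([i] ++ [n])) - A x (u n)) = A x (u n) := by
      omega
    rw [e5]
    exact per_union (per_minPer (H.fac n) o1.2) k2 (by omega)
  have f6n := (H.f6W (l := [i] ++ [n]) (l' := [n]) (by simp) (by simp) hl (by simp)).1 f6w
  rw [W_single] at f6n
  obtain ⟨g, g1, g2, g3⟩ := f6n
  unfold B at g3
  have hocc : OccursAt x (W u ([i] ++ [n])) (A x (u n) - (u i).length) := by
    rw [W_snoc, W_single, occ_append]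
    have hai := H.a_mono h
    have e6 : A x (u n) - (u i).length + (u i).length = A x (u n) := by omega
    rw [e6]
    refine ⟨?_, o1.2⟩
    refine occ_of_eq h2 (fun t ht => ?_)
    have hcmp := per_compare (i := (u i).length - 1 - t) (H.pi_pos n) (by omega) k2 g3
      (fun i hi => occ_eq h3 o1.2 hi) (by omega) (by omega)
    have e7 : A x (W u ([i] ++ [n])) + (u i).length - 1 - ((u i).length - 1 - t) =
      A x (W u ([i] ++ [n])) + t := by omega
    have e8 : A x (u n) - 1 - ((u i).length - 1 - t) = A x (u n) - (u i).length + t := by omega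
    rw [e7, e8] at hcmp
    exact hcmp.symm
  have hai := H.a_mono h
  have hai2 := (occ_A (H.fac i)).1
  have := A_le (by omega) hocc
  omega

/-! #### the common part -/

theorem K1 (H : Ctx x C u) (i : ℕ) :
    ∃ N, ∀ n, N ≤ n → i < n ∧ A x (W u ([i] ++ [n])) + (u i).length = A x (u n) := by
  by_cases hP : f4 x (u 0)
  · obtain ⟨N, hN⟩ := H.P3 hP (2 * (u i).length)
    refine ⟨max N (i + 1), fun n hn => ?_⟩
    have h1 : i < n := by omega
    exact ⟨h1, H.P4 hP h1 (hN n (by omega)).le⟩
  · refine ⟨i + 1, fun n hn => ?_⟩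
    have h1 : i < n := by omega
    have := H.caseN hP (l := [i]) (n := n) (by simp [h1])
    rw [W_single] at this
    exact ⟨h1, this⟩

theorem K2 (H : Ctx x C u) (L : ℕ) : ∃ N, ∀ n, N ≤ n → L < minPer x (u n) := by
  by_cases hP : f4 x (u 0)
  · exact H.P3 hP L
  · obtain ⟨N, hN⟩ := H.len_tendsto (8 * L)
    refine ⟨N, fun n hn => ?_⟩
    have h1 := hN n hn
    have h2 := H.caseN_per hP n
    omega

/-- `u i` ends right before the first occurrence of `u n`, for large `n` -/
theorem Q1 (H : Ctx x C u) (i : ℕ) :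
    ∃ N, ∀ n, N ≤ n → i < n ∧ OccursAt x (u i) (A x (u n) - (u i).length) := by
  obtain ⟨N, hN⟩ := H.K1 i
  refine ⟨N, fun n hn => ?_⟩
  obtain ⟨h1, h2⟩ := hN n hn
  refine ⟨h1, ?_⟩
  have hl : ([i] ++ [n]).Pairwise (· < ·) := by simp [h1]
  have h3 := (H.snoc hl).2.1
  rw [W_single] at h3
  rwa [← h2, Nat.add_sub_cancel]

/-- `u i` is a suffix of `u n` -/
theorem Q3 (H : Ctx x C u) {i n : ℕ} (h : i < n) :
    OccursAt x (u i) (A x (u n) + (u n).length - (u i).length) := by
  obtain ⟨N1, hN1⟩ := H.Q1 i
  obtain ⟨N2, hN2⟩ := H.Q1 n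
  obtain ⟨h1, h2⟩ := hN1 (max N1 N2) (by omega)
  obtain ⟨h3, h4⟩ := hN2 (max N1 N2) (by omega)
  have hlen : (u i).length ≤ (u n).length := by
    have := H.a_mono h
    have := H.a_small n
    omega
  have hbig := H.a_mono h3
  refine occ_of_eq h2 (fun t ht => ?_)
  have := occ_eq (occ_A (H.fac n)).2 h4 (i := (u n).length - (u i).length + t) (by omega)
  rw [show A x (u n) + (u n).length - (u i).length + t =
    A x (u n) + ((u n).length - (u i).length + t) by omega, this]
  congr 1; omega

/-- the gaps vanish eventually -/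
theorem Q4 (H : Ctx x C u) :
    ∃ m, ∀ n, m ≤ n → A x (u (n + 1)) = A x (u n) + (u n).length := by
  obtain ⟨i, hi⟩ := H.K2 C
  have hi := hi i le_rfl
  obtain ⟨N, hN⟩ := H.Q1 i
  refine ⟨max N (i + 1), fun n hn => ?_⟩
  have g1 := H.gap1 n
  have g2 := H.gap2 n
  by_contra hne
  have h1 := (hN (n + 1) (by omega)).2
  have hin : i < n := by omega
  have h2 := H.Q3 hin
  have hlen : (u i).length ≤ (u n).length := by
    have := H.a_mono hin
    have := H.a_small n
    omega
  set d := A x (u (n + 1)) - (A x (u n) + (u n).length) with hd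
  have e : A x (u (n + 1)) - (u i).length = A x (u n) + (u n).length - (u i).length + d := by
    omega
  rw [e] at h1
  have h3 := per_of_occ h2 h1
  have := minPer_le_of_occ (H.fac i) h2 (by omega) h3
  omega

theorem contig (H : Ctx x C u) {m : ℕ}
    (hm : ∀ n, m ≤ n → A x (u (n + 1)) = A x (u n) + (u n).length) (k : ℕ) :
    OccursAt x (W u (List.range' m k)) (A x (u m)) ∧
    A x (u m) + (W u (List.range' m k)).length = A x (u (m + k)) := by
  induction k with
  | zero =>
    refine ⟨?_, by simp [W]⟩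
    intro i hi
    simp [W] at hi
  | succ k ih =>
    rw [List.range'_1_concat, W_snoc, occ_append, List.length_append, ← add_assoc, ih.2]
    refine ⟨⟨ih.1, (occ_A (H.fac _)).2⟩, ?_⟩
    rw [← add_assoc, hm (m + k) (by omega)]

theorem Q5 (H : Ctx x C u) {m : ℕ}
    (hm : ∀ n, m ≤ n → A x (u (n + 1)) = A x (u n) + (u n).length) {n : ℕ} (hn : m < n)
    {t : ℕ} (ht : t + A x (u m) < A x (u n)) :
    x (A x (u (n + 1)) - 1 - t) = x (A x (u n) - 1 - t) := by
  have hl : (List.range' m (n - m) ++ [n + 1]).Pairwise (· < ·) := by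
    rw [List.pairwise_append]
    refine ⟨List.pairwise_lt_range', by simp, ?_⟩
    intro a ha b hb
    rw [List.mem_range'_1] at ha
    rw [List.mem_singleton] at hb
    omega
  obtain ⟨c1, c2⟩ := H.contig hm (n - m)
  rw [show m + (n - m) = n by omega] at c2
  obtain ⟨h1, h2, h3, h4, h5, h6⟩ := H.snoc hl
  set v := W u (List.range' m (n - m)) with hv
  set p := A x (W u (List.range' m (n - m) ++ [n + 1])) with hp
  -- the word `v` ends at `p + |v|` and at `a_n`
  have hcmp1 : x (p + v.length - 1 - t) = x (A x (u n) - 1 - t) := by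
    have := occ_eq h2 c1 (i := v.length - 1 - t) (by omega)
    rw [show p + v.length - 1 - t = p + (v.length - 1 - t) by omega, this]
    congr 1; omega
  by_cases hP : f4 x (u 0)
  · obtain ⟨k1, k2⟩ := H.P1 hP hl
    rw [← hp, ← hv] at k2
    -- the contiguous occurrence of `u n ++ u (n+1)`
    have hl2 : ([n] ++ [n + 1]).Pairwise (· < ·) := by simp
    obtain ⟨i1, i2, i3, i4, i5, i6⟩ := H.snoc hl2
    obtain ⟨j1, j2⟩ := H.P1 hP hl2
    rw [W_single] at i2 i3 j2
    have o1 := (occ_A (H.fac n)).2
    have o2 := (occ_A (H.fac (n + 1))).2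
    have e1 := hm n hn.le
    have big : Per x (A x (u n)) (A x (u n) + ((u n).length + (u (n + 1)).length))
        (minPer x (u (n + 1))) := by
      rw [add_assoc] at j2
      refine per_transfer j2 (fun t ht => ?_)
      by_cases htn : t < (u n).length
      · exact occ_eq o1 i2 htn
      · have := occ_eq o2 i3 (i := t - (u n).length) (by omega)
        rw [e1] at this
        rw [show A x (u n) + t = A x (u n) + (u n).length + (t - (u n).length) by omega, this]
        congr 1; omega
    rw [← add_assoc, ← e1] at big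
    have hsm := H.a_small n
    have hpr := H.caseP_pi hP (n + 1)
    have := per_compare (i := t) (H.pi_pos (n + 1)) (by omega) big k2
      (fun i hi => occ_eq o2 h3 hi) (by omega) (by omega)
    rw [this, hcmp1]
  · have := H.caseN hP hl
    rw [← hp, ← hv] at this
    rw [← this]
    exact hcmp1

theorem contradiction (H : Ctx x C u) : False := by
  obtain ⟨m, hm⟩ := H.Q4
  -- `f5` holds for all products
  have h5 : ∀ n, m < n → 2 * A x (u m) ≤ A x (u n) → f5 x (u n) := by
    intro n hn hbig i hi
    unfold B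
    rw [← hm n hn.le]
    exact (H.Q5 hm hn (by omega)).symm
  obtain ⟨n0, hn0⟩ : ∃ n0, ∀ n, n0 ≤ n → m < n ∧ 2 * A x (u m) ≤ A x (u n) := by
    obtain ⟨N, hN⟩ := H.len_tendsto (2 * A x (u m))
    refine ⟨max (N + 1) (m + 1), fun n hn => ⟨by omega, ?_⟩⟩
    have h1 := hN (n - 1) (by omega)
    have h2 := H.a_mono (i := n - 1) (n := n) (by omega)
    omega
  have h5all : ∀ l : List ℕ, l ≠ [] → l.Pairwise (· < ·) → f5 x (W u l) := by
    intro l hl0 hl
    obtain ⟨q1, q2⟩ := hn0 n0 le_rfl
    have := h5 n0 q1 q2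
    have h6 : f5 x (W u [n0]) := by rwa [W_single]
    exact (H.f5W (by simp) hl0 (by simp) hl).1 h6
  -- choose `j` with long periods
  obtain ⟨j, hj⟩ := H.K2 (u m).length
  have hj := hj j le_rfl
  obtain ⟨N1, hN1⟩ := H.K1 m
  obtain ⟨N2, hN2⟩ := H.Q1 j
  obtain ⟨N3, hN3⟩ := H.len_tendsto (2 * (u j).length + (u m).length)
  obtain ⟨n, hn⟩ : ∃ n, n = max (max N1 N2) (max (N3 + 1) (m + 1)) := ⟨_, rfl⟩
  obtain ⟨a1, a2⟩ := hN1 n (by omega)
  obtain ⟨b1, b2⟩ := hN2 n (by omega)
  have c1 := hN3 (n - 1) (by omega)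
  have c2 := H.a_mono (i := n - 1) (n := n) (by omega)
  have hl : ([m] ++ [n]).Pairwise (· < ·) := by simp [a1]
  have f5w := h5all ([m] ++ [n]) (by simp) hl
  have f5n := h5all [n] (by simp) (by simp)
  rw [W_single] at f5n
  have eA : A x (W u ([m] ++ [n])) = A x (u n) - (u m).length := by omega
  have eB : B x (W u ([m] ++ [n])) = B x (u n) := by
    have e4 : (W u ([m] ++ [n])).length = (u m).length + (u n).length := by
      rw [W_snoc, List.length_append, W_single]
    unfold B
    omega
  have key : ∀ i, 2 * (i + 1) + (u m).length ≤ A x (u n) →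
      x (A x (u n) - (u m).length - 1 - i) = x (A x (u n) - 1 - i) := by
    intro i hi
    have h1 := f5w i (by rw [eA]; omega)
    have h2 := f5n i (by omega)
    rw [eA, eB] at h1
    rw [h1, h2]
  have hper : Per x (A x (u n) - (u j).length) (A x (u n) - (u j).length + (u j).length)
      (u m).length := by
    intro i hi1 hi2
    have := key (A x (u n) - 1 - (i + (u m).length)) (by omega)
    rw [show A x (u n) - (u m).length - 1 - (A x (u n) - 1 - (i + (u m).length)) = i by omega,
      show A x (u n) - 1 - (A x (u n) - 1 - (i + (u m).length)) = i + (u m).length by omega]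
      at this
    exact this
  have := minPer_le_of_occ (H.fac j) b2 (H.len_pos m) hper
  omega

end Ctx

theorem not_good (x : ℕ → X) (C : ℕ) (u : ℕ → List X) : ¬ Good x (col x) C u := by
  rintro ⟨h1, h2, c, h3⟩
  refine Ctx.contradiction (x := x) (C := C) (u := u) ⟨h1, fun n => (h2 n).1, fun n => ?_, ?_⟩
  · exact (h2 n).2
  · intro l l' hl0 hl0' hl hl'
    exact (h3 l hl0 hl).trans (h3 l' hl0' hl').symm

/-- For every alphabet `X` and every infinite word `x` over `X` there is a finite colouring `χ` of the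
finite words such that, for every `C`, no sequence of factors of `x` is `C`-good for `χ`. -/
theorem result : ∀ (X : Type u) (x : ℕ → X),
    ∃ (κ : Type) (_ : Finite κ) (χ : List X → κ),
      ∀ (C : ℕ) (u : ℕ → List X), ¬ Good x χ C u :=
  fun _ x => ⟨_, inferInstance, col x, fun C u => not_good x C u⟩

end Pool.Agent.Results.MP_231d99_co.EveryWord
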